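import Mathlib

/-!
MP_cd3997_nt (square primitive parts of the Pell numbers), partial result: the primitive part
`L r` is not a square for several infinite families of indices `r` with at most two prime factors.
-/

namespace Pool.Agent.Results.MP_cd3997_nt.PrimePowerIndices

/-- The Pell numbers `0, 1, 2, 5, 12, 29, 70, 169, …`. -/
def pell : ℕ → ℕ
  | 0 => 0
  | 1 => 1
  | (n + 2) => 2 * pell (n + 1) + pell n

/-- `L` is the primitive part: `pell r` is the product of `L d` over the divisors `d` of `r`. -/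
def IsPrimitivePart (L : ℕ → ℕ) : Prop :=
  ∀ r : ℕ, 1 ≤ r → pell r = ∏ d ∈ r.divisors, L d

/-- half companion Pell numbers `1, 1, 3, 7, 17, 41, …` -/
def half : ℕ → ℕ
  | 0 => 1
  | 1 => 1
  | (n + 2) => 2 * half (n + 1) + half n

theorem step (n : ℕ) : pell (n + 1) = pell n + half n ∧ half (n + 1) = half n + 2 * pell n := by
  induction n using Nat.strong_induction_on with
  | _ n ih =>
    match n with
    | 0 => simp [pell, half]
    | 1 => simp [pell, half]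
    | (k + 2) =>
      obtain ⟨h1, h2⟩ := ih k (by omega)
      obtain ⟨h3, h4⟩ := ih (k + 1) (by omega)
      have e1 : pell (k + 2 + 1) = 2 * pell (k + 2) + pell (k + 1) := rfl
      have e2 : half (k + 2 + 1) = 2 * half (k + 2) + half (k + 1) := rfl
      have e3 : pell (k + 1 + 1) = pell (k + 2) := rfl
      have e4 : half (k + 1 + 1) = half (k + 2) := rfl
      have e5 : pell (k + 2) = 2 * pell (k + 1) + pell k := rfl
      have e6 : half (k + 2) = 2 * half (k + 1) + half k := rfl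
      constructor <;> omega

theorem add (m n : ℕ) : pell (m + n) = pell m * half n + half m * pell n ∧
    half (m + n) = half m * half n + 2 * (pell m * pell n) := by
  induction n with
  | zero => simp [pell, half]
  | succ n ih =>
    obtain ⟨h1, h2⟩ := ih
    obtain ⟨s1, s2⟩ := step (m + n)
    obtain ⟨t1, t2⟩ := step n
    rw [← add_assoc, s1, s2, t1, t2, h1, h2]
    constructor <;> ring

theorem norm (n : ℕ) : ((half n : ℤ)) ^ 2 - 2 * (pell n : ℤ) ^ 2 = (-1) ^ n := by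
  induction n with
  | zero => simp [pell, half]
  | succ n ih =>
    obtain ⟨s1, s2⟩ := step n
    rw [s1, s2, pow_succ (-1 : ℤ) n, ← ih]
    push_cast
    ring

theorem pell_pos {n : ℕ} (hn : 1 ≤ n) : 0 < pell n := by
  induction n, hn using Nat.le_induction with
  | base => simp [pell]
  | succ n _ ih => rw [(step n).1]; omega

theorem half_pos (n : ℕ) : 0 < half n := by
  induction n with
  | zero => simp [half]
  | succ n ih => rw [(step n).2]; omega

theorem half_odd (n : ℕ) : half n % 2 = 1 := by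
  induction n with
  | zero => simp [half]
  | succ n ih => rw [(step n).2]; omega

theorem mod8 (n : ℕ) : pell (n + 8) % 8 = pell n % 8 ∧ half (n + 8) % 8 = half n % 8 := by
  obtain ⟨h1, h2⟩ := add n 8
  have e1 : pell 8 = 408 := by simp [pell]
  have e2 : half 8 = 577 := by simp [half]
  rw [h1, h2, e1, e2]
  constructor <;> omega

theorem mod8' (n t : ℕ) : pell (n + 8 * t) % 8 = pell n % 8 ∧
    half (n + 8 * t) % 8 = half n % 8 := by
  induction t with
  | zero => simp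
  | succ t ih =>
    have := mod8 (n + 8 * t)
    rw [show n + 8 * (t + 1) = n + 8 * t + 8 by ring]
    omega

theorem pell_mod (n : ℕ) : pell n % 8 = pell (n % 8) % 8 := by
  conv_lhs => rw [← Nat.mod_add_div n 8]
  exact (mod8' _ _).1

theorem half_mod (n : ℕ) : half n % 8 = half (n % 8) % 8 := by
  conv_lhs => rw [← Nat.mod_add_div n 8]
  exact (mod8' _ _).2

theorem shift {k : ℕ} (hk : Even k) (n : ℕ) :
    (half k : ℤ) ∣ half (n + 2 * k) + half n := by
  obtain ⟨h1, h2⟩ := add n (2 * k)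
  obtain ⟨h3, h4⟩ := add k k
  have h5 := norm k
  rw [hk.neg_one_pow] at h5
  rw [h2, two_mul k, h3, h4]
  refine ⟨2 * half n * half k + 4 * pell n * pell k, ?_⟩
  push_cast
  have h6 : 2 * (pell k : ℤ) ^ 2 = (half k : ℤ) ^ 2 - 1 := by linarith
  linear_combination (half n : ℤ) * h6

theorem shift_odd {k : ℕ} (hk : Even k) (n t : ℕ) :
    (half k : ℤ) ∣ half (n + 2 * k * (2 * t + 1)) + half n := by
  induction t with
  | zero => simpa using shift hk n
  | succ t ih =>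
    have h1 := shift hk (n + 2 * k * (2 * t + 1))
    have h2 := shift hk (n + 2 * k * (2 * t + 1) + 2 * k)
    have e : n + 2 * k * (2 * (t + 1) + 1) = n + 2 * k * (2 * t + 1) + 2 * k + 2 * k := by ring
    rw [e]
    have h3 := (dvd_sub h2 h1).add ih
    have e2 : ((half (n + 2 * k * (2 * t + 1) + 2 * k + 2 * k) : ℤ) + half n) =
        ((half (n + 2 * k * (2 * t + 1) + 2 * k + 2 * k) : ℤ) +
          half (n + 2 * k * (2 * t + 1) + 2 * k)) -
        ((half (n + 2 * k * (2 * t + 1) + 2 * k) : ℤ) + half (n + 2 * k * (2 * t + 1))) +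
        (half (n + 2 * k * (2 * t + 1)) + half n) := by ring
    rw [e2]
    exact h3

theorem not_neg_one {b : ℕ} (hb : b % 4 = 3) (y : ℤ) : ¬ (b : ℤ) ∣ y * y + 1 := by
  intro h
  have h1 : jacobiSym (-1) b = jacobiSym (y * y) b := by
    apply jacobiSym.mod_left'
    have : (-1 : ℤ) ≡ y * y [ZMOD b] := by
      rw [Int.modEq_iff_dvd]
      simpa using h
    exact this
  have h2 : jacobiSym (-1) b = -1 := by
    rw [jacobiSym.at_neg_one (by rw [Nat.odd_iff]; omega), ZMod.χ₄_nat_three_mod_four hb]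
  rw [h2, jacobiSym.mul_left] at h1
  nlinarith [mul_self_nonneg (jacobiSym y b)]

section
variable {L : ℕ → ℕ} (hL : IsPrimitivePart L)
include hL

theorem prime_pow_step {p : ℕ} (hp : p.Prime) (j : ℕ) :
    pell (p ^ (j + 1)) = pell (p ^ j) * L (p ^ (j + 1)) := by
  rw [hL _ (Nat.one_le_pow _ _ hp.pos), hL _ (Nat.one_le_pow _ _ hp.pos),
    Nat.prod_divisors_prime_pow hp, Nat.prod_divisors_prime_pow hp, Finset.prod_range_succ]

theorem two_mul_prime_pow {p : ℕ} (hp : p.Prime) (h2 : p ≠ 2) (j : ℕ) :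
    pell (2 * p ^ j) = pell (p ^ j) * ∏ i ∈ Finset.range (j + 1), L (2 * p ^ i) := by
  have hc : Nat.Coprime 2 (p ^ j) :=
    Nat.Coprime.pow_right _ ((Nat.coprime_primes Nat.prime_two hp).2 (Ne.symm h2))
  rw [hL _ (Nat.mul_pos two_pos (Nat.one_le_pow _ _ hp.pos)), hL _ (Nat.one_le_pow _ _ hp.pos)]
  have h : ∏ d ∈ (2 * p ^ j).divisors, L d =
      ∏ a ∈ Nat.divisors 2, ∏ b ∈ (p ^ j).divisors, L (a * b) := by
    rw [Nat.divisors_mul, Finset.mul_def, Finset.prod_image, Finset.prod_product]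
    exact hc.mul_injOn_divisors
  rw [h, Nat.Prime.divisors Nat.prime_two, Finset.prod_pair (by norm_num)]
  simp only [one_mul]
  rw [Nat.prod_divisors_prime_pow hp (f := fun b => L (2 * b))]

/-- `L (2 p^j) · H (p^(j-1)) = H (p^j)` -/
theorem half_step {p : ℕ} (hp : p.Prime) (h2 : p ≠ 2) (j : ℕ) :
    half (p ^ (j + 1)) = half (p ^ j) * L (2 * p ^ (j + 1)) := by
  have key : ∀ i, ∏ i ∈ Finset.range (i + 1), L (2 * p ^ i) = 2 * half (p ^ i) := by
    intro i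
    have h := two_mul_prime_pow hL hp h2 i
    have h1 := (add (p ^ i) (p ^ i)).1
    rw [← two_mul, h] at h1
    have h3 : pell (p ^ i) * ∏ i ∈ Finset.range (i + 1), L (2 * p ^ i) =
        pell (p ^ i) * (2 * half (p ^ i)) := by
      rw [h1]; ring
    exact Nat.eq_of_mul_eq_mul_left (pell_pos (Nat.one_le_pow _ _ hp.pos)) h3
  have h := key (j + 1)
  rw [Finset.prod_range_succ, key j] at h
  have h' : 2 * (half (p ^ j) * L (2 * p ^ (j + 1))) = 2 * half (p ^ (j + 1)) := by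
    rw [← h]; ring
  omega

theorem two_pow_case (k : ℕ) (hk : 1 ≤ k) : ¬ IsSquare (L (2 ^ k)) := by
  obtain ⟨j, rfl⟩ := Nat.exists_eq_add_of_le' hk
  have h := prime_pow_step hL Nat.prime_two j
  have h1 := (add (2 ^ j) (2 ^ j)).1
  rw [← two_mul, ← pow_succ'] at h1
  have h3 : pell (2 ^ j) * L (2 ^ (j + 1)) = pell (2 ^ j) * (2 * half (2 ^ j)) := by
    rw [← h, h1]; ring
  have h4 := Nat.eq_of_mul_eq_mul_left (pell_pos (Nat.one_le_pow _ _ two_pos)) h3
  rintro ⟨y, hy⟩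
  have h5 := half_odd (2 ^ j)
  rw [hy] at h4
  have h6 : y * y % 4 = 2 := by omega
  have h7 : y % 4 = 0 ∨ y % 4 = 1 ∨ y % 4 = 2 ∨ y % 4 = 3 := by omega
  rcases h7 with h7 | h7 | h7 | h7 <;> simp [Nat.mul_mod, h7] at h6

theorem prime_pow_case (p j : ℕ) (hp : p.Prime) (h8 : p % 8 = 3 ∨ p % 8 = 5) (hj : 1 ≤ j) :
    ¬ IsSquare (L (p ^ j)) := by
  obtain ⟨j, rfl⟩ := Nat.exists_eq_add_of_le' hj
  have h := prime_pow_step hL hp j
  rintro ⟨y, hy⟩
  rw [hy] at h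
  have hm : p ^ j % 8 = 1 ∨ p ^ j % 8 = 3 ∨ p ^ j % 8 = 5 ∨ p ^ j % 8 = 7 := by
    have : p ^ j % 2 = 1 := by
      rw [Nat.pow_mod]
      have : p % 2 = 1 := by omega
      rw [this]; simp
    omega
  have e : p ^ (j + 1) % 8 = (p ^ j % 8) * (p % 8) % 8 := by rw [pow_succ, Nat.mul_mod]
  have h1 : pell (p ^ (j + 1)) % 8 = pell (p ^ j) * (y * y) % 8 := by rw [h]
  rw [pell_mod (p ^ (j + 1)), e, Nat.mul_mod (pell (p ^ j)) (y * y), pell_mod (p ^ j)] at h1
  have h7 : y % 8 = 0 ∨ y % 8 = 1 ∨ y % 8 = 2 ∨ y % 8 = 3 ∨ y % 8 = 4 ∨ y % 8 = 5 ∨ y % 8 = 6 ∨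
    y % 8 = 7 := by omega
  rcases hm with hm | hm | hm | hm <;> rcases h8 with h8 | h8 <;>
    rcases h7 with h7 | h7 | h7 | h7 | h7 | h7 | h7 | h7 <;>
    simp [hm, h8, Nat.mul_mod, h7, pell] at h1

theorem two_prime_pow_case (p j : ℕ) (hp : p.Prime) (h8 : p % 8 = 3 ∨ p % 8 = 5 ∨ p % 8 = 7)
    (hj : 1 ≤ j) : ¬ IsSquare (L (2 * p ^ j)) := by
  obtain ⟨j, rfl⟩ := Nat.exists_eq_add_of_le' hj
  have h := half_step hL hp (by rintro rfl; omega) j
  rintro ⟨y, hy⟩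
  rw [hy] at h
  have hodd : p ^ j % 2 = 1 := by
    rw [Nat.pow_mod]
    have : p % 2 = 1 := by omega
    rw [this]; simp
  by_cases h5 : p % 8 = 5
  · -- modulus half (2 p^j)
    set m := p ^ j with hm
    have hk : Even (2 * m) := even_two_mul m
    have h1 := shift_odd hk m (p / 8)
    have e : m + 2 * (2 * m) * (2 * (p / 8) + 1) = p ^ (j + 1) := by
      rw [pow_succ, ← hm]
      conv_rhs => rw [← Nat.div_add_mod p 8, h5]
      ring
    rw [e, h] at h1
    have hn := norm m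
    have ho : Odd m := Nat.odd_iff.2 hodd
    rw [ho.neg_one_pow] at hn
    have h2 := (add m m).2
    rw [← two_mul] at h2
    have h3 : (half (2 * m) : ℤ) = 2 * (half m : ℤ) ^ 2 + 1 := by
      rw [h2]; push_cast; linarith
    have hc : IsCoprime (half (2 * m) : ℤ) (half m : ℤ) := by
      rw [h3]
      exact ⟨1, -(2 * half m), by ring⟩
    have h4 : (half (2 * m) : ℤ) ∣ half m * ((y : ℤ) * y + 1) := by
      have : (half m : ℤ) * ((y : ℤ) * y + 1) = ((half m * (y * y) : ℕ) : ℤ) + half m := by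
        push_cast; ring
      rw [this]; exact h1
    have h6 := hc.dvd_of_dvd_mul_left h4
    refine not_neg_one ?_ _ h6
    have h7 : half (2 * m) = 2 * half m ^ 2 + 1 := by exact_mod_cast h3
    have h9 := half_odd m
    have h10 : half m ^ 2 % 4 = 1 := by
      have : half m % 4 = 1 ∨ half m % 4 = 3 := by omega
      rcases this with h | h <;> simp [Nat.pow_mod, h]
    omega
  · have hp4 : p % 8 = 3 ∨ p % 8 = 7 := by omega
    have hm : p ^ j % 8 = 1 ∨ p ^ j % 8 = 3 ∨ p ^ j % 8 = 5 ∨ p ^ j % 8 = 7 := by omega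
    have e : p ^ (j + 1) % 8 = (p ^ j % 8) * (p % 8) % 8 := by rw [pow_succ, Nat.mul_mod]
    have h1 : half (p ^ (j + 1)) % 8 = half (p ^ j) * (y * y) % 8 := by rw [h]
    rw [half_mod (p ^ (j + 1)), e, Nat.mul_mod (half (p ^ j)) (y * y), half_mod (p ^ j)] at h1
    have h7 : y % 8 = 0 ∨ y % 8 = 1 ∨ y % 8 = 2 ∨ y % 8 = 3 ∨ y % 8 = 4 ∨ y % 8 = 5 ∨
      y % 8 = 6 ∨ y % 8 = 7 := by omega
    rcases hm with hm | hm | hm | hm <;> rcases hp4 with h8 | h8 <;>
      rcases h7 with h7 | h7 | h7 | h7 | h7 | h7 | h7 | h7 <;>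
      simp [hm, h8, Nat.mul_mod, h7, half] at h1

end

theorem congr_half {c : ℕ} (hc : Even c) (t : ℕ) :
    ((half c : ℤ) ∣ pell (c * (2 * t + 1)) - (-1) ^ t * pell c) ∧
    ((half c : ℤ) ^ 2 ∣ half (c * (2 * t + 1)) - (-1) ^ t * (2 * t + 1) * half c) := by
  have h5 := norm c
  rw [hc.neg_one_pow] at h5
  obtain ⟨h3, h4⟩ := add c c
  rw [← two_mul] at h3 h4
  induction t with
  | zero => simp
  | succ t ih =>
    obtain ⟨⟨a, ha⟩, ⟨b, hb⟩⟩ := ih
    obtain ⟨h1, h2⟩ := add (c * (2 * t + 1)) (2 * c)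
    have e : c * (2 * (t + 1) + 1) = c * (2 * t + 1) + 2 * c := by ring
    rw [e, h1, h2, h3, h4]
    have ha' : (pell (c * (2 * t + 1)) : ℤ) = half c * a + (-1) ^ t * pell c := by linarith
    have hb' : (half (c * (2 * t + 1)) : ℤ) =
        half c ^ 2 * b + (-1) ^ t * (2 * t + 1) * half c := by linarith
    push_cast
    rw [ha', hb']
    have h6 : 2 * (pell c : ℤ) ^ 2 = (half c : ℤ) ^ 2 - 1 := by linarith
    have hs : ((-1 : ℤ)) ^ (t + 1) = -(-1) ^ t := by rw [pow_succ]; ring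
    rw [hs]
    generalize ((-1 : ℤ)) ^ t = σ
    generalize (half c : ℤ) = x at *
    generalize (pell c : ℤ) = z at *
    constructor
    · refine ⟨2 * x * (x * a + σ * z) - a + 2 * z * (x ^ 2 * b + σ * (2 * t + 1) * x), ?_⟩
      linear_combination (x * a + σ * z) * h6
    · refine ⟨2 * (x ^ 2 * b + σ * (2 * t + 1) * x) - b + 4 * a * z + 2 * σ * x, ?_⟩
      linear_combination (x ^ 2 * b + σ * (2 * t + 1) * x + 2 * σ * x) * h6

/-- quadratic reciprocity for `n* = (-1)^((n-1)/2) n` -/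
theorem recip {n N t : ℕ} (hn : n = 2 * t + 1) (hN : N % 2 = 1) :
    jacobiSym ((-1) ^ t * (n : ℤ)) N = jacobiSym (N : ℤ) n := by
  have hNo : Odd N := Nat.odd_iff.2 hN
  have hno : Odd n := ⟨t, hn⟩
  rcases Nat.even_or_odd t with ht | ht
  · rw [ht.neg_one_pow, one_mul]
    obtain ⟨s, hs⟩ := ht
    exact jacobiSym.quadratic_reciprocity_one_mod_four (by omega) hNo
  · rw [ht.neg_one_pow, jacobiSym.mul_left, jacobiSym.at_neg_one hNo]
    obtain ⟨s, hs⟩ := ht
    have h4 : N % 4 = 1 ∨ N % 4 = 3 := by omega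
    rcases h4 with h4 | h4
    · rw [ZMod.χ₄_nat_one_mod_four h4, one_mul]
      exact jacobiSym.quadratic_reciprocity_one_mod_four' hno h4
    · rw [ZMod.χ₄_nat_three_mod_four h4,
        jacobiSym.quadratic_reciprocity_three_mod_four (by omega) h4]
      ring

section
variable {L : ℕ → ℕ} (hL : IsPrimitivePart L)
include hL

theorem two_pow_mul_prime_pow {p : ℕ} (hp : p.Prime) (h2 : p ≠ 2) (k j : ℕ) :
    pell (2 ^ k * p ^ j) = ∏ a ∈ Finset.range (k + 1), ∏ i ∈ Finset.range (j + 1),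
      L (2 ^ a * p ^ i) := by
  have hc : Nat.Coprime (2 ^ k) (p ^ j) :=
    Nat.Coprime.pow _ _ ((Nat.coprime_primes Nat.prime_two hp).2 (Ne.symm h2))
  rw [hL _ (Nat.mul_pos (Nat.one_le_pow _ _ two_pos) (Nat.one_le_pow _ _ hp.pos))]
  rw [Nat.divisors_mul, Finset.mul_def, Finset.prod_image, Finset.prod_product]
  · rw [Nat.prod_divisors_prime_pow Nat.prime_two]
    refine Finset.prod_congr rfl fun a _ => ?_
    rw [Nat.prod_divisors_prime_pow hp]
  · exact hc.mul_injOn_divisors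

theorem half_step' {p : ℕ} (hp : p.Prime) (h2 : p ≠ 2) (k j : ℕ) :
    half (2 ^ k * p ^ (j + 1)) = half (2 ^ k * p ^ j) * L (2 ^ (k + 1) * p ^ (j + 1)) := by
  have key : ∀ i, ∏ i ∈ Finset.range (i + 1), L (2 ^ (k + 1) * p ^ i) =
      2 * half (2 ^ k * p ^ i) := by
    intro i
    have h := two_pow_mul_prime_pow hL hp h2 (k + 1) i
    rw [Finset.prod_range_succ, ← two_pow_mul_prime_pow hL hp h2 k i] at h
    have h1 := (add (2 ^ k * p ^ i) (2 ^ k * p ^ i)).1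
    rw [← two_mul, ← mul_assoc, ← pow_succ', h] at h1
    have h3 : pell (2 ^ k * p ^ i) * ∏ i ∈ Finset.range (i + 1), L (2 ^ (k + 1) * p ^ i) =
        pell (2 ^ k * p ^ i) * (2 * half (2 ^ k * p ^ i)) := by
      rw [h1]; ring
    exact Nat.eq_of_mul_eq_mul_left
      (pell_pos (Nat.mul_pos (Nat.one_le_pow _ _ two_pos) (Nat.one_le_pow _ _ hp.pos))) h3
  have h := key (j + 1)
  rw [Finset.prod_range_succ, key j] at h
  have h' : 2 * (half (2 ^ k * p ^ j) * L (2 ^ (k + 1) * p ^ (j + 1))) =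
      2 * half (2 ^ k * p ^ (j + 1)) := by
    rw [← h]; ring
  omega

theorem mixed_case (k : ℕ) (q j : ℕ) (hk : 2 ≤ k) (hq : q.Prime) (h2 : q ≠ 2)
    (hJ : jacobiSym (half (2 ^ (k - 1)) : ℤ) q = -1) (hj : 1 ≤ j) :
    ¬ IsSquare (L (2 ^ k * q ^ j)) := by
  obtain ⟨j, rfl⟩ := Nat.exists_eq_add_of_le' hj
  obtain ⟨k, rfl⟩ := Nat.exists_eq_add_of_le' hk
  rw [show k + 2 - 1 = k + 1 by omega] at hJ
  rintro ⟨y, hy⟩
  have h := half_step' hL hq h2 (k + 1) j
  rw [show k + 1 + 1 = k + 2 by omega, hy] at h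
  set c := 2 ^ (k + 1) with hcdef
  have hce : Even c := by rw [hcdef, pow_succ]; exact even_two.mul_left _
  have hN := half_odd c
  set N := half c with hNdef
  have hqo : q % 2 = 1 := by
    rcases hq.eq_two_or_odd with h | h
    · exact absurd h h2
    · exact h
  have hm1 : (q ^ j) % 2 = 1 := by rw [Nat.pow_mod, hqo]; simp
  have hm2 : (q ^ (j + 1)) % 2 = 1 := by rw [Nat.pow_mod, hqo]; simp
  obtain ⟨s, hs⟩ : ∃ s, q ^ j = 2 * s + 1 := ⟨q ^ j / 2, by omega⟩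
  obtain ⟨w, hw⟩ : ∃ w, q ^ (j + 1) = 2 * w + 1 := ⟨q ^ (j + 1) / 2, by omega⟩
  have c1 := (congr_half hce s).2
  have c2 := (congr_half hce w).2
  rw [← hs, ← hNdef] at c1
  rw [← hw, ← hNdef] at c2
  rw [h] at c2
  have hN0 : (N : ℤ) ≠ 0 := by
    have := half_pos c
    rw [← hNdef] at this
    positivity
  -- N ∣ (-1)^w q^(j+1) - (-1)^s q^j y^2
  have c3 : (N : ℤ) ∣ (-1) ^ w * (q ^ (j + 1) : ℕ) - ((-1) ^ s * (q ^ j : ℕ)) * ((y : ℤ) * y) := by
    have hs' : ((q ^ j : ℕ) : ℤ) = 2 * s + 1 := by rw [hs]; push_cast; ring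
    have hw' : ((q ^ (j + 1) : ℕ) : ℤ) = 2 * w + 1 := by rw [hw]; push_cast; ring
    rw [hs', hw']
    have c4 : (N : ℤ) * N ∣ N * ((-1) ^ w * (2 * w + 1) - ((-1) ^ s * (2 * s + 1)) * ((y : ℤ) * y)) := by
      have c5 := dvd_sub (Dvd.dvd.mul_right c1 ((y : ℤ) * y)) c2
      have c7 : (N : ℤ) * ((-1) ^ w * (2 * w + 1) - ((-1) ^ s * (2 * s + 1)) * ((y : ℤ) * y)) =
          ((half (c * q ^ j) : ℤ) - (-1) ^ s * (2 * s + 1) * N) * ((y : ℤ) * y) -
          (((half (c * q ^ j) * (y * y) : ℕ) : ℤ) - (-1) ^ w * (2 * w + 1) * N) := by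
        push_cast
        ring
      rw [← sq, c7]
      exact c5
    exact (mul_dvd_mul_iff_left hN0).1 c4
  have c6 : jacobiSym ((-1) ^ w * (q ^ (j + 1) : ℕ)) N =
      jacobiSym (((-1) ^ s * (q ^ j : ℕ)) * ((y : ℤ) * y)) N := by
    apply jacobiSym.mod_left'
    have : (-1 : ℤ) ^ w * (q ^ (j + 1) : ℕ) ≡ ((-1) ^ s * (q ^ j : ℕ)) * ((y : ℤ) * y) [ZMOD N] := by
      exact (Int.modEq_iff_dvd.2 (by simpa using (dvd_neg.2 c3)))
    exact this
  rw [jacobiSym.mul_left (((-1) ^ s * (q ^ j : ℕ))), recip hw hN, recip hs hN,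
    jacobiSym.mul_left (y : ℤ), jacobiSym.pow_right, jacobiSym.pow_right, hJ] at c6
  rcases Nat.even_or_odd j with hj' | hj'
  · rw [hj'.neg_one_pow, hj'.add_one.neg_one_pow] at c6
    nlinarith [mul_self_nonneg (jacobiSym (y : ℤ) N)]
  · rw [hj'.neg_one_pow, hj'.add_one.neg_one_pow] at c6
    nlinarith [mul_self_nonneg (jacobiSym (y : ℤ) N)]

end

theorem congr_pell {c : ℕ} (hc : Odd c) (t : ℕ) :
    ((pell c : ℤ) ∣ half (c * (2 * t + 1)) - (-1) ^ t * half c) ∧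
    ((pell c : ℤ) ^ 2 ∣ pell (c * (2 * t + 1)) - (-1) ^ t * (2 * t + 1) * pell c) := by
  have h5 := norm c
  rw [hc.neg_one_pow] at h5
  obtain ⟨h3, h4⟩ := add c c
  rw [← two_mul] at h3 h4
  induction t with
  | zero => simp
  | succ t ih =>
    obtain ⟨⟨a, ha⟩, ⟨b, hb⟩⟩ := ih
    obtain ⟨h1, h2⟩ := add (c * (2 * t + 1)) (2 * c)
    have e : c * (2 * (t + 1) + 1) = c * (2 * t + 1) + 2 * c := by ring
    rw [e, h1, h2, h3, h4]
    have ha' : (half (c * (2 * t + 1)) : ℤ) = pell c * a + (-1) ^ t * half c := by linarith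
    have hb' : (pell (c * (2 * t + 1)) : ℤ) =
        pell c ^ 2 * b + (-1) ^ t * (2 * t + 1) * pell c := by linarith
    push_cast
    rw [ha', hb']
    have h6 : (half c : ℤ) ^ 2 = 2 * (pell c : ℤ) ^ 2 - 1 := by linarith
    have hs : ((-1 : ℤ)) ^ (t + 1) = -(-1) ^ t := by rw [pow_succ]; ring
    rw [hs]
    generalize ((-1 : ℤ)) ^ t = σ
    generalize (half c : ℤ) = x at *
    generalize (pell c : ℤ) = z at *
    constructor
    · refine ⟨4 * z * (z * a + σ * x) + 4 * (z ^ 2 * b + σ * (2 * t + 1) * z) * x - a, ?_⟩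
      linear_combination (z * a + σ * x) * h6
    · refine ⟨4 * (z ^ 2 * b + σ * (2 * t + 1) * z) - b + 2 * a * x + 4 * σ * z, ?_⟩
      linear_combination (z ^ 2 * b + σ * (2 * t + 1) * z + 2 * σ * z) * h6

theorem pell_mod5 {n : ℕ} (h2 : n % 2 = 1) (h3 : n % 3 ≠ 0) : jacobiSym (pell n : ℤ) 5 = 1 := by
  have key : ∀ t : ℕ, pell (n % 12 + 12 * t) % 5 = pell (n % 12) % 5 := by
    intro t
    induction t with
    | zero => simp
    | succ t ih =>
      obtain ⟨h1, -⟩ := add (n % 12 + 12 * t) 12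
      have e1 : pell 12 = 13860 := by simp [pell]
      have e2 : half 12 = 19601 := by simp [half]
      rw [show n % 12 + 12 * (t + 1) = n % 12 + 12 * t + 12 by ring, h1, e1, e2]
      omega
  have h4 := key (n / 12)
  rw [Nat.mod_add_div] at h4
  have h5 : n % 12 = 1 ∨ n % 12 = 5 ∨ n % 12 = 7 ∨ n % 12 = 11 := by omega
  have h6 : pell n % 5 = 1 ∨ pell n % 5 = 4 := by
    rcases h5 with h | h | h | h <;> rw [h] at h4 <;> simp [pell] at h4 <;> omega
  rw [jacobiSym.mod_left]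
  have h7 : ((pell n : ℤ) % ((5 : ℕ) : ℤ)) = ((pell n % 5 : ℕ) : ℤ) := by push_cast; rfl
  rw [h7]
  rcases h6 with h | h
  · rw [h]; norm_num
  · rw [h]; norm_num

section
variable {L : ℕ → ℕ} (hL : IsPrimitivePart L)
include hL

theorem prime_mul_prime_pow {r p : ℕ} (hr : r.Prime) (hp : p.Prime) (h2 : r ≠ p) (j : ℕ) :
    pell (r * p ^ j) = pell (p ^ j) * ∏ i ∈ Finset.range (j + 1), L (r * p ^ i) := by
  have hc : Nat.Coprime r (p ^ j) :=
    Nat.Coprime.pow_right _ ((Nat.coprime_primes hr hp).2 h2)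
  rw [hL _ (Nat.mul_pos hr.pos (Nat.one_le_pow _ _ hp.pos)), hL _ (Nat.one_le_pow _ _ hp.pos)]
  have h : ∏ d ∈ (r * p ^ j).divisors, L d =
      ∏ a ∈ Nat.divisors r, ∏ b ∈ (p ^ j).divisors, L (a * b) := by
    rw [Nat.divisors_mul, Finset.mul_def, Finset.prod_image, Finset.prod_product]
    exact hc.mul_injOn_divisors
  rw [h, Nat.Prime.divisors hr, Finset.prod_pair hr.one_lt.ne]
  simp only [one_mul]
  rw [Nat.prod_divisors_prime_pow hp (f := fun b => L (r * b))]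

theorem three_case (q j : ℕ) (hq : q.Prime) (h2 : q ≠ 2) (h3 : q ≠ 3)
    (h5 : q % 5 = 2 ∨ q % 5 = 3) (hj : 1 ≤ j) : ¬ IsSquare (L (3 * q ^ j)) := by
  obtain ⟨j, rfl⟩ := Nat.exists_eq_add_of_le' hj
  rintro ⟨y, hy⟩
  have a1 := prime_mul_prime_pow hL Nat.prime_three hq (Ne.symm h3) j
  have a2 := prime_mul_prime_pow hL Nat.prime_three hq (Ne.symm h3) (j + 1)
  rw [Finset.prod_range_succ, hy] at a2
  have hqo : q % 2 = 1 := by
    rcases hq.eq_two_or_odd with h | h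
    · exact absurd h h2
    · exact h
  have hq3 : ∀ i, (q ^ i) % 3 ≠ 0 := by
    intro i hi
    have := Nat.prime_three.dvd_of_dvd_pow (Nat.dvd_of_mod_eq_zero hi)
    exact h3 ((Nat.prime_dvd_prime_iff_eq Nat.prime_three hq).1 this).symm
  have hm1 : (q ^ j) % 2 = 1 := by rw [Nat.pow_mod, hqo]; simp
  have hm2 : (q ^ (j + 1)) % 2 = 1 := by rw [Nat.pow_mod, hqo]; simp
  obtain ⟨s, hs⟩ : ∃ s, q ^ j = 2 * s + 1 := ⟨q ^ j / 2, by omega⟩
  obtain ⟨w, hw⟩ : ∃ w, q ^ (j + 1) = 2 * w + 1 := ⟨q ^ (j + 1) / 2, by omega⟩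
  have hs' : ((q ^ j : ℕ) : ℤ) = 2 * s + 1 := by rw [hs]; push_cast; ring
  have hw' : ((q ^ (j + 1) : ℕ) : ℤ) = 2 * w + 1 := by rw [hw]; push_cast; ring
  have p3 : pell 3 = 5 := by simp [pell]
  have c1 := (congr_pell (c := 3) (by decide) s).2
  have c2 := (congr_pell (c := 3) (by decide) w).2
  rw [← hs, p3] at c1
  rw [← hw, p3] at c2
  set A := pell (3 * q ^ j) with hA
  set B := pell (3 * q ^ (j + 1)) with hB
  set U := pell (q ^ j) with hU
  set V := pell (q ^ (j + 1)) with hV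
  have rel : (B : ℤ) * U = V * A * ((y : ℤ) * y) := by
    have : B * U = V * A * (y * y) := by rw [a1, a2]; ring
    exact_mod_cast this
  have c3 : (5 : ℤ) ∣ ((-1) ^ w * (q ^ (j + 1) : ℕ)) * U - ((-1) ^ s * (q ^ j : ℕ)) * (V * ((y : ℤ) * y)) := by
    rw [hs', hw']
    have c5 := dvd_sub (Dvd.dvd.mul_right c1 ((V : ℤ) * ((y : ℤ) * y))) (Dvd.dvd.mul_right c2 (U : ℤ))
    have c7 : (5 : ℤ) * (((-1) ^ w * (2 * w + 1)) * U - ((-1) ^ s * (2 * s + 1)) * (V * ((y : ℤ) * y))) =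
        ((A : ℤ) - (-1) ^ s * (2 * s + 1) * ((5 : ℕ) : ℤ)) * ((V : ℤ) * ((y : ℤ) * y)) -
          ((B : ℤ) - (-1) ^ w * (2 * w + 1) * ((5 : ℕ) : ℤ)) * U := by
      push_cast
      linear_combination rel
    have c8 : (5 : ℤ) * 5 ∣ 5 * (((-1) ^ w * (2 * w + 1)) * U -
        ((-1) ^ s * (2 * s + 1)) * (V * ((y : ℤ) * y))) := by
      rw [c7]
      have e25 : ((5 : ℕ) : ℤ) ^ 2 = 5 * 5 := by norm_num
      rw [← e25]
      exact c5
    exact (mul_dvd_mul_iff_left (by norm_num)).1 c8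
  have c6 : jacobiSym (((-1) ^ w * (q ^ (j + 1) : ℕ)) * U) 5 =
      jacobiSym (((-1) ^ s * (q ^ j : ℕ)) * (V * ((y : ℤ) * y))) 5 := by
    apply jacobiSym.mod_left'
    have : ((-1 : ℤ) ^ w * (q ^ (j + 1) : ℕ)) * U ≡
        ((-1) ^ s * (q ^ j : ℕ)) * (V * ((y : ℤ) * y)) [ZMOD (5 : ℕ)] := by
      exact (Int.modEq_iff_dvd.2 (by simpa using (dvd_neg.2 c3)))
    exact this
  have hJ : jacobiSym (5 : ℤ) q = -1 := by
    have := jacobiSym.quadratic_reciprocity_one_mod_four' (a := q) (b := 5)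
      (Nat.odd_iff.2 hqo) (by norm_num)
    rw [show ((5 : ℕ) : ℤ) = 5 from rfl] at this
    rw [← this, jacobiSym.mod_left]
    have h7 : ((q : ℤ) % ((5 : ℕ) : ℤ)) = ((q % 5 : ℕ) : ℤ) := by push_cast; rfl
    rw [h7]
    rcases h5 with h | h
    · rw [h]; norm_num
    · rw [h]; norm_num
  rw [jacobiSym.mul_left _ (U : ℤ), jacobiSym.mul_left ((-1) ^ s * (q ^ j : ℕ) : ℤ),
    jacobiSym.mul_left (V : ℤ), jacobiSym.mul_left (y : ℤ), recip hw (by norm_num),
    recip hs (by norm_num), hU, hV, pell_mod5 hm1 (hq3 _), pell_mod5 hm2 (hq3 _),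
    jacobiSym.pow_right, jacobiSym.pow_right, show ((5 : ℕ) : ℤ) = 5 from rfl, hJ] at c6
  rcases Nat.even_or_odd j with hj' | hj'
  · rw [hj'.neg_one_pow, hj'.add_one.neg_one_pow] at c6
    nlinarith [mul_self_nonneg (jacobiSym (y : ℤ) 5)]
  · rw [hj'.neg_one_pow, hj'.add_one.neg_one_pow] at c6
    nlinarith [mul_self_nonneg (jacobiSym (y : ℤ) 5)]

end

theorem jac_three {q : ℕ} (h : q % 12 = 5 ∨ q % 12 = 7) : jacobiSym (3 : ℤ) q = -1 := by
  have ho : Odd q := Nat.odd_iff.2 (by omega)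
  have h1 := jacobiSym.mod_right (3 : ℤ) ho
  rw [show 4 * (3 : ℤ).natAbs = 12 from rfl] at h1
  rw [h1]
  rcases h with h | h
  · rw [h]; norm_num
  · rw [h]; norm_num

/-- For the primitive part `L` of the Pell numbers: none of the following is a perfect square:
`L (2 ^ k)` for `k ≥ 1`; `L (p ^ j)` for primes `p ≡ 3, 5 mod 8` and `j ≥ 1`; `L (2 * p ^ j)` for primes
`p ≡ 3, 5, 7 mod 8` and `j ≥ 1`; `L (2 ^ k * q ^ j)` for `k ≥ 2`, `j ≥ 1` and odd primes `q` modulo which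
the half companion Pell number `half (2 ^ (k - 1))` is a quadratic nonresidue; in particular
`L (4 * q ^ j)` for primes `q ≡ 5, 7 mod 12` and `j ≥ 1`; and `L (3 * q ^ j)` for odd primes
`q ≡ 2, 3 mod 5`, `q ≠ 3`, and `j ≥ 1`. -/
theorem result (L : ℕ → ℕ) (hL : IsPrimitivePart L) :
    (∀ k : ℕ, 1 ≤ k → ¬ IsSquare (L (2 ^ k))) ∧
    (∀ p j : ℕ, p.Prime → p % 8 = 3 ∨ p % 8 = 5 → 1 ≤ j → ¬ IsSquare (L (p ^ j))) ∧
    (∀ p j : ℕ, p.Prime → p % 8 = 3 ∨ p % 8 = 5 ∨ p % 8 = 7 → 1 ≤ j →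
      ¬ IsSquare (L (2 * p ^ j))) ∧
    (∀ k q j : ℕ, 2 ≤ k → q.Prime → q ≠ 2 → jacobiSym (half (2 ^ (k - 1)) : ℤ) q = -1 → 1 ≤ j →
      ¬ IsSquare (L (2 ^ k * q ^ j))) ∧
    (∀ q j : ℕ, q.Prime → q % 12 = 5 ∨ q % 12 = 7 → 1 ≤ j → ¬ IsSquare (L (4 * q ^ j))) ∧
    (∀ q j : ℕ, q.Prime → q ≠ 2 → q ≠ 3 → q % 5 = 2 ∨ q % 5 = 3 → 1 ≤ j →
      ¬ IsSquare (L (3 * q ^ j))) := by
  refine ⟨two_pow_case hL, prime_pow_case hL, two_prime_pow_case hL,
    fun k q j hk hq h2 hJ hj => mixed_case hL k q j hk hq h2 hJ hj, fun q j hq h hj => ?_,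
    three_case hL⟩
  refine mixed_case hL 2 q j le_rfl hq (by rintro rfl; omega) ?_ hj
  have e : half (2 ^ (2 - 1)) = 3 := by simp [half]
  rw [e]
  exact_mod_cast jac_three h

end Pool.Agent.Results.MP_cd3997_nt.PrimePowerIndices
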